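import Mathlib

namespace Pool.Agent.MP_4a6971_al

/-- The ball of radius `r` for the word length with respect to `S`: the products of at most `r`
elements of `S ∪ S⁻¹`. -/
def wordBall {G : Type*} [Group G] (S : Set G) (r : ℕ) : Set G :=
  {x | ∃ l : List G, l.length ≤ r ∧ (∀ y ∈ l, y ∈ S ∨ y⁻¹ ∈ S) ∧ l.prod = x}

end Pool.Agent.MP_4a6971_al
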