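import Mathlib

namespace Pool.Agent.MP_4a6971_al

/-- The Gromov product `(x | y)_w`. -/
noncomputable def gromovProduct {X : Type*} [MetricSpace X] (w x y : X) : ℝ :=
  (dist x w + dist y w - dist x y) / 2

/-- Gromov hyperbolicity (four point condition). -/
def IsHyperbolic (X : Type*) [MetricSpace X] : Prop :=
  ∃ δ : ℝ, ∀ w x y z : X, min (gromovProduct w x y) (gromovProduct w y z) - δ ≤ gromovProduct w x z

/-- `a` is loxodromic: some orbit map `n ↦ aⁿ o` grows at least linearly. -/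
def IsLoxodromic {G : Type*} (X : Type*) [Group G] [MetricSpace X] [MulAction G X] (a : G) : Prop :=
  ∃ o : X, ∃ c : ℝ, 0 < c ∧ ∃ C : ℝ, ∀ n : ℕ, c * n - C ≤ dist o (a ^ n • o)

/-- The weak proper discontinuity condition of Bestvina and Fujiwara. -/
def IsWPD {G : Type*} (X : Type*) [Group G] [MetricSpace X] [MulAction G X] (a : G) : Prop :=
  ∀ (x : X) (ε : ℝ), 0 < ε → ∃ n : ℕ, 0 < n ∧
    {h : G | dist x (h • x) ≤ ε ∧ dist (a ^ n • x) (h • a ^ n • x) ≤ ε}.Finite

end Pool.Agent.MP_4a6971_al
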