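import Pool.Agent.MP_4a6971_al.Defs

/-!
Cogrowth estimate for generating sets containing many ping-pong players.
-/

namespace Pool.Agent.MP_4a6971_al

open Set

variable {G Q : Type*} [Group G] [Group Q]

theorem wordBall_zero (S : Set G) : wordBall S 0 = {1} := by
  ext x
  constructor
  · rintro ⟨l, h1, -, rfl⟩
    rw [List.length_eq_zero_iff.1 (Nat.le_zero.1 h1)]
    rfl
  · rintro rfl
    exact ⟨[], le_rfl, by simp, rfl⟩

theorem mem_wordBall_succ {S : Set G} {r : ℕ} {x : G} (h : x ∈ wordBall S (r + 1)) :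
    ∃ s, (s = 1 ∨ s ∈ S ∨ s⁻¹ ∈ S) ∧ s⁻¹ * x ∈ wordBall S r := by
  obtain ⟨l, h1, h2, rfl⟩ := h
  rcases l with _ | ⟨s, l⟩
  · exact ⟨1, Or.inl rfl, [], by simp, by simp, by simp⟩
  · exact ⟨s, Or.inr (h2 s (by simp)), l, by simpa using h1, fun y hy => h2 y (by simp [hy]),
      by simp⟩

theorem mul_mem_wordBall {S : Set G} {r : ℕ} {x s : G} (hs : s ∈ S) (h : x ∈ wordBall S r) :
    s * x ∈ wordBall S (r + 1) := by
  obtain ⟨l, h1, h2, rfl⟩ := h
  refine ⟨s :: l, by simpa using h1, fun y hy => ?_, by simp⟩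
  rcases List.mem_cons.1 hy with rfl | hy
  · exact Or.inl hs
  · exact h2 y hy

theorem wordBall_finite {S : Set G} (hS : S.Finite) (r : ℕ) : (wordBall S r).Finite := by
  induction r with
  | zero => rw [wordBall_zero]; exact finite_singleton _
  | succ r ih =>
    refine (((hS.union hS.inv).insert 1).biUnion fun s _ => ih.image (s * ·)).subset fun x hx => ?_
    obtain ⟨s, hs, hx'⟩ := mem_wordBall_succ hx
    exact mem_biUnion (x := s) (by simpa using hs) ⟨_, hx', by simp⟩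

/-- The Schur test for the number of elements of the ball in each fibre. -/
theorem schur_bound (π : G →* Q) {S : Set G} (hS : S.Finite) {ι : Type*} [Fintype ι] (σ : ι → G)
    (hσ : ∀ s, (s = 1 ∨ s ∈ S ∨ s⁻¹ ∈ S) → ∃ i, σ i = s) (L : Q → ι → ℝ) (hL : ∀ x i, 0 < L x i)
    (κ : ℝ) (h1 : ∀ x, ∑ i, L x i ≤ κ) (h2 : ∀ y, ∑ i, (L (π (σ i) * y) i)⁻¹ ≤ κ) (r : ℕ) :
    ((wordBall S r ∩ π.ker).ncard : ℝ) ≤ κ ^ r := by
  classical
  let b : ℕ → Q → ℝ := fun r x => ((wordBall S r ∩ π ⁻¹' {x}).ncard : ℝ)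
  have hb0 : ∀ r x, 0 ≤ b r x := fun r x => Nat.cast_nonneg _
  have hκ : 0 ≤ κ := (Finset.sum_nonneg fun i _ => (hL 1 i).le).trans (h1 1)
  have hsupp : ∀ r x, x ∉ π '' wordBall S r → b r x = 0 := by
    intro r x hx
    have : wordBall S r ∩ π ⁻¹' {x} = ∅ := eq_empty_of_forall_notMem fun y hy => hx ⟨y, hy.1, hy.2⟩
    simp [b, this]
  have hrec : ∀ r x, b (r + 1) x ≤ ∑ i, b r ((π (σ i))⁻¹ * x) := by
    intro r x
    have hsub : wordBall S (r + 1) ∩ π ⁻¹' {x} ⊆
        ⋃ i ∈ (Finset.univ : Finset ι),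
          (σ i * ·) '' (wordBall S r ∩ π ⁻¹' {(π (σ i))⁻¹ * x}) := by
      rintro y ⟨hy, hy'⟩
      obtain ⟨s, hs, hy2⟩ := mem_wordBall_succ hy
      obtain ⟨i, rfl⟩ := hσ s hs
      have hy'' : π y = x := hy'
      exact mem_biUnion (Finset.mem_univ i) ⟨_, ⟨hy2, by simp [hy'']⟩, by simp⟩
    have hfin : ∀ i, (wordBall S r ∩ π ⁻¹' {(π (σ i))⁻¹ * x}).Finite := fun i =>
      (wordBall_finite hS r).inter_of_left _
    have := (ncard_le_ncard hsub (Finset.univ.finite_toSet.biUnion fun i _ =>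
      (hfin i).image _)).trans (Finset.set_ncard_biUnion_le _ _)
    simp only [b]
    rw [← Nat.cast_sum, Nat.cast_le]
    exact this.trans (Finset.sum_le_sum fun i _ => ncard_image_le (hfin i))
  have hE : ∀ r, ∀ D : Finset Q, ∑ x ∈ D, b r x ^ 2 ≤ (κ ^ r) ^ 2 := by
    intro r
    induction r with
    | zero =>
      intro D
      have : ∀ x, b 0 x ^ 2 ≤ if x = 1 then 1 else 0 := by
        intro x
        split_ifs with h
        · have : wordBall S 0 ∩ π ⁻¹' {x} = {1} := by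
            rw [wordBall_zero, h]
            exact inter_eq_left.2 (by simp)
          simp [b, this]
        · rw [hsupp 0 x (by simpa [wordBall_zero, eq_comm] using h)]
          simp
      refine (Finset.sum_le_sum fun x _ => this x).trans ?_
      rw [Finset.sum_ite_eq']
      split_ifs <;> simp
    | succ r ih =>
      intro D
      have c1 : ∀ x, b (r + 1) x ^ 2 ≤ κ * ∑ i, b r ((π (σ i))⁻¹ * x) ^ 2 / L x i := by
        intro x
        have := Finset.sq_sum_div_le_sum_sq_div Finset.univ (fun i => b r ((π (σ i))⁻¹ * x))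
          (g := L x) fun i _ => hL x i
        rcases isEmpty_or_nonempty ι with hι | hι
        · exact (hσ 1 (Or.inl rfl)).elim fun i _ => hι.elim i
        have hpos : 0 < ∑ i, L x i := Finset.sum_pos (fun i _ => hL x i) Finset.univ_nonempty
        rw [div_le_iff₀ hpos] at this
        refine (pow_le_pow_left₀ (hb0 _ _) (hrec r x) 2).trans (this.trans ?_)
        rw [mul_comm]
        exact mul_le_mul_of_nonneg_right (h1 x)
          (Finset.sum_nonneg fun i _ => div_nonneg (sq_nonneg _) (hL x i).le)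
      let D' := Finset.univ.biUnion fun i => D.image fun x => (π (σ i))⁻¹ * x
      have c2 : ∀ i, ∑ x ∈ D, b r ((π (σ i))⁻¹ * x) ^ 2 / L x i ≤
          ∑ y ∈ D', b r y ^ 2 * (L (π (σ i) * y) i)⁻¹ := by
        intro i
        have e : ∑ x ∈ D, b r ((π (σ i))⁻¹ * x) ^ 2 / L x i =
            ∑ y ∈ D.image fun x => (π (σ i))⁻¹ * x, b r y ^ 2 * (L (π (σ i) * y) i)⁻¹ := by
          rw [Finset.sum_image fun x _ y _ h => mul_left_cancel h]
          simp [div_eq_mul_inv]
        rw [e]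
        exact Finset.sum_le_sum_of_subset_of_nonneg
          (Finset.subset_biUnion_of_mem (fun i => D.image fun x => (π (σ i))⁻¹ * x)
            (Finset.mem_univ i))
          fun y _ _ => mul_nonneg (sq_nonneg _) (inv_pos.2 (hL _ _)).le
      calc ∑ x ∈ D, b (r + 1) x ^ 2
          ≤ ∑ x ∈ D, κ * ∑ i, b r ((π (σ i))⁻¹ * x) ^ 2 / L x i := Finset.sum_le_sum fun x _ => c1 x
        _ = κ * ∑ i, ∑ x ∈ D, b r ((π (σ i))⁻¹ * x) ^ 2 / L x i := by
          rw [← Finset.mul_sum, Finset.sum_comm]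
        _ ≤ κ * ∑ i, ∑ y ∈ D', b r y ^ 2 * (L (π (σ i) * y) i)⁻¹ :=
          mul_le_mul_of_nonneg_left (Finset.sum_le_sum fun i _ => c2 i) hκ
        _ = κ * ∑ y ∈ D', b r y ^ 2 * ∑ i, (L (π (σ i) * y) i)⁻¹ := by
          rw [Finset.sum_comm]
          simp only [Finset.mul_sum]
        _ ≤ κ * ∑ y ∈ D', b r y ^ 2 * κ := mul_le_mul_of_nonneg_left
          (Finset.sum_le_sum fun y _ => mul_le_mul_of_nonneg_left (h2 y) (sq_nonneg _)) hκ
        _ = κ ^ 2 * ∑ y ∈ D', b r y ^ 2 := by rw [← Finset.sum_mul]; ring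
        _ ≤ κ ^ 2 * (κ ^ r) ^ 2 := mul_le_mul_of_nonneg_left (ih D') (sq_nonneg _)
        _ = _ := by ring
  have := hE r {1}
  rw [Finset.sum_singleton] at this
  exact (pow_le_pow_iff_left₀ (hb0 r 1) (pow_nonneg hκ r) two_ne_zero).1 this

/-- A ping-pong table with `M` players. -/
structure Table (Q : Type*) [Group Q] (M : ℕ) where
  t : Fin M → Q
  U : Fin M × Bool → Set Q
  disj : ∀ i j x, x ∈ U i → x ∈ U j → i = j
  play : ∀ i x, x ∉ U (i, false) → t i * x ∈ U (i, true)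
  base : ∀ i, 1 ∉ U (i, false)

theorem Table.lower {M : ℕ} (T : Table Q M) (π : G →* Q) (t : Fin M → G) (ht : ∀ i, π (t i) = T.t i)
    {S : Set G} (hS : S.Finite) (hmem : ∀ i, t i ∈ S) (r : ℕ) : M ^ r ≤ (wordBall S r).ncard := by
  classical
  have key : ∃ P : Finset G, P.card = M ^ r ∧ ∀ x ∈ P, x ∈ wordBall S r ∧
      ∀ i, π x ∉ T.U (i, false) := by
    induction r with
    | zero => exact ⟨{1}, by simp, by simpa [wordBall_zero] using T.base⟩
    | succ r ih =>
      obtain ⟨P, h1, h2⟩ := ih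
      have h3 : ∀ i, ∀ x ∈ P, π (t i * x) ∈ T.U (i, true) := fun i x hx => by
        rw [map_mul, ht]
        exact T.play i _ ((h2 x hx).2 i)
      refine ⟨(Finset.univ ×ˢ P).image fun p => t p.1 * p.2, ?_, ?_⟩
      · rw [Finset.card_image_of_injOn]
        · simp [h1, pow_succ']
        · rintro ⟨i, x⟩ hx ⟨j, y⟩ hy h
          have hx' : x ∈ P := by simpa using hx
          have hy' : y ∈ P := by simpa using hy
          have h' : t i * x = t j * y := h
          have := T.disj _ _ _ (h3 i x hx') (h' ▸ h3 j y hy')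
          obtain rfl : i = j := congrArg Prod.fst this
          rw [mul_left_cancel h']
      · intro z hz
        obtain ⟨⟨i, x⟩, hx, rfl⟩ := Finset.mem_image.1 hz
        have hx' : x ∈ P := by simpa using hx
        refine ⟨mul_mem_wordBall (hmem i) (h2 x hx').1, fun j hj => ?_⟩
        simpa using T.disj _ _ _ (h3 i x hx') hj
  obtain ⟨P, h1, h2⟩ := key
  rw [← h1, ← ncard_coe_finset]
  exact ncard_le_ncard (fun x hx => (h2 x hx).1) (wordBall_finite hS r)

theorem Table.upper {M : ℕ} (T : Table Q M) (π : G →* Q) (t : Fin M → G) (ht : ∀ i, π (t i) = T.t i)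
    (S : Finset G) {α : ℝ} (hα : 0 < α) (r : ℕ) :
    ((wordBall ((S : Set G) ∪ range t) r ∩ π.ker).ncard : ℝ) ≤
      (1 + 2 * S.card + (α + 2 * M / α)) ^ r := by
  classical
  let σ : Unit ⊕ (S × Bool) ⊕ (Fin M × Bool) → G := Sum.elim (fun _ => 1)
    (Sum.elim (fun p => if p.2 then p.1.1 else p.1.1⁻¹) fun p => if p.2 then t p.1 else (t p.1)⁻¹)
  let L : Q → Unit ⊕ (S × Bool) ⊕ (Fin M × Bool) → ℝ := fun x => Sum.elim (fun _ => 1)
    (Sum.elim (fun _ => 1) fun p => if x ∈ T.U p then α else α⁻¹)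
  have hsum : ∀ (p : Fin M × Bool → Prop) (f : Fin M × Bool → ℝ), (∀ i j, p i → p j → i = j) →
      (∀ i, f i ≤ (if p i then α else 0) + α⁻¹) → ∑ i, f i ≤ α + 2 * M / α := by
    intro p f hp hf
    refine (Finset.sum_le_sum fun i _ => hf i).trans ?_
    rw [Finset.sum_add_distrib, ← Finset.sum_filter, Finset.sum_const, Finset.sum_const]
    have : (Finset.univ.filter p).card ≤ 1 := Finset.card_le_one.2 fun i hi j hj =>
      hp i j (Finset.mem_filter.1 hi).2 (Finset.mem_filter.1 hj).2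
    have h2 : ((Finset.univ.filter p).card : ℝ) ≤ 1 := by exact_mod_cast this
    simp only [nsmul_eq_mul, Finset.card_univ, Fintype.card_prod, Fintype.card_fin,
      Fintype.card_bool]
    push_cast
    rw [div_eq_mul_inv]
    nlinarith
  have hi := inv_pos.2 hα
  refine schur_bound π (S.finite_toSet.union (finite_range t)) σ ?_ L ?_ _ (fun x => ?_)
    (fun y => ?_) r
  · rintro s (rfl | (hs | ⟨i, rfl⟩) | (hs | ⟨i, hs⟩))
    · exact ⟨Sum.inl (), rfl⟩
    · exact ⟨Sum.inr (Sum.inl (⟨s, hs⟩, true)), rfl⟩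
    · exact ⟨Sum.inr (Sum.inr (i, true)), rfl⟩
    · exact ⟨Sum.inr (Sum.inl (⟨s⁻¹, hs⟩, false)), by simp [σ]⟩
    · exact ⟨Sum.inr (Sum.inr (i, false)), by simp [σ, hs]⟩
  · rintro x (_ | _ | p)
    · exact one_pos
    · exact one_pos
    · simp only [L, Sum.elim_inr]
      split_ifs <;> assumption
  · have := hsum (fun p => x ∈ T.U p) (fun p => if x ∈ T.U p then α else α⁻¹)
      (fun i j => T.disj i j x) fun i => by split_ifs <;> linarith
    simp only [L, Fintype.sum_sum_type, Sum.elim_inl, Sum.elim_inr]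
    simp
    linarith
  · have := hsum (fun p => y ∈ T.U (p.1, !p.2))
      (fun p => (L (π (σ (Sum.inr (Sum.inr p))) * y) (Sum.inr (Sum.inr p)))⁻¹)
      (fun i j h1 h2 => by
        have := T.disj _ _ y h1 h2
        simp only [Prod.mk.injEq, Bool.not_inj_iff] at this
        exact Prod.ext this.1 this.2) (by
      rintro ⟨i, b⟩
      simp only [L, σ, Sum.elim_inr]
      by_cases h : y ∈ T.U (i, !b)
      · rw [if_pos h]
        split_ifs <;> first | linarith | (rw [inv_inv]; linarith)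
      · rw [if_neg h, zero_add, if_pos]
        rcases b with _ | _
        · by_contra hc
          have := T.play i _ hc
          simp [ht] at this
          exact h this
        · simpa [ht] using T.play i y h)
    simp only [Fintype.sum_sum_type]
    simp [L] at this ⊢
    linarith

theorem negligible_of_tables (π : G →* Q) (hπ : Function.Surjective π)
    (hT : ∀ M, Nonempty (Table Q M)) (S : Finset G) :
    ∃ S' : Finset G, S ⊆ S' ∧ ∃ θ : ℝ, 0 < θ ∧ θ < 1 ∧ ∀ r : ℕ,
      ((wordBall (S' : Set G) r ∩ π.ker).ncard : ℝ) ≤ θ ^ r * (wordBall (S' : Set G) r).ncard := by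
  classical
  let n := S.card + 3
  obtain ⟨T⟩ := hT (2 * n ^ 2)
  choose t ht using fun i => hπ (T.t i)
  have hn : (3 : ℝ) ≤ n := by simp [n]
  have hc : (S.card : ℝ) = n - 3 := by simp [n]
  have e : ((S ∪ Finset.univ.image t : Finset G) : Set G) = (S : Set G) ∪ range t := by simp
  have hM : (0 : ℝ) < ((2 * n ^ 2 : ℕ) : ℝ) := by positivity
  refine ⟨S ∪ Finset.univ.image t, Finset.subset_union_left,
    (1 + 2 * S.card + (2 * n + 2 * ((2 * n ^ 2 : ℕ) : ℝ) / (2 * n))) / ((2 * n ^ 2 : ℕ) : ℝ),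
    by positivity, ?_, fun r => ?_⟩
  · rw [div_lt_one hM, hc]
    push_cast
    have : 2 * (2 * (n : ℝ) ^ 2) / (2 * n) = 2 * n := by field_simp
    rw [this]
    nlinarith
  · rw [e]
    refine (T.upper π t ht S (α := 2 * n) (by positivity) r).trans ?_
    rw [div_pow, div_mul_eq_mul_div, le_div_iff₀ (by positivity)]
    refine mul_le_mul_of_nonneg_left ?_ (by positivity)
    exact_mod_cast T.lower π t ht (S.finite_toSet.union (finite_range t))
      (fun i => Or.inr ⟨i, rfl⟩) r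

theorem table_symplectic {l : Type*} [DecidableEq l] [Fintype l] (i₀ : l) (M : ℕ) :
    Nonempty (Table (Matrix.symplecticGroup l ℤ) M) := by
  let c : Fin M × Bool → ℤ := fun p => 6 * p.1 + if p.2 then 0 else 3
  let m : ℤ → ℤ → Matrix.symplecticGroup l ℤ := fun a b =>
    ⟨Matrix.fromBlocks (a • 1) ((-(a * b + 1)) • 1) 1 ((-b) • 1), by
      rw [SymplecticGroup.mem_iff, Matrix.J, Matrix.fromBlocks_transpose,
        Matrix.fromBlocks_multiply, Matrix.fromBlocks_multiply]
      simp only [Matrix.transpose_smul, Matrix.transpose_one, Matrix.mul_zero, Matrix.mul_one,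
        zero_add, add_zero, Matrix.mul_neg, Matrix.mul_smul]
      congr 1 <;> module⟩
  let R₁ : Matrix.symplecticGroup l ℤ → (l ⊕ l → ℤ) := fun q => q.1 (Sum.inl i₀)
  let R₂ : Matrix.symplecticGroup l ℤ → (l ⊕ l → ℤ) := fun q => q.1 (Sum.inr i₀)
  have h1 : ∀ a b q, R₁ (m a b * q) = a • R₁ q - (a * b + 1) • R₂ q := by
    intro a b q
    funext j
    simp only [R₁, R₂, m, Submonoid.coe_mul, Matrix.mul_apply, Fintype.sum_sum_type,
      Matrix.fromBlocks_apply₁₁, Matrix.fromBlocks_apply₁₂, Matrix.fromBlocks_apply₂₁,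
      Matrix.fromBlocks_apply₂₂, Matrix.smul_apply, Matrix.one_apply, smul_eq_mul, mul_ite, mul_one,
      mul_zero, ite_mul, zero_mul, Finset.sum_ite_eq, Finset.mem_univ, if_true, Pi.sub_apply,
      Pi.smul_apply]
    ring
  have h2 : ∀ a b q, R₂ (m a b * q) = R₁ q - b • R₂ q := by
    intro a b q
    funext j
    simp only [R₁, R₂, m, Submonoid.coe_mul, Matrix.mul_apply, Fintype.sum_sum_type,
      Matrix.fromBlocks_apply₁₁, Matrix.fromBlocks_apply₁₂, Matrix.fromBlocks_apply₂₁,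
      Matrix.fromBlocks_apply₂₂, Matrix.smul_apply, Matrix.one_apply, smul_eq_mul, mul_ite, mul_one,
      mul_zero, ite_mul, zero_mul, Finset.sum_ite_eq, Finset.mem_univ, if_true, Pi.sub_apply,
      Pi.smul_apply]
    ring
  have h3 : ∀ q, 0 < ‖R₂ q‖ := by
    intro q
    rw [norm_pos_iff]
    intro h
    have : (q.1 * (q⁻¹).1) (Sum.inr i₀) (Sum.inr i₀) = 1 := by
      rw [← Submonoid.coe_mul, mul_inv_cancel]
      simp
    have h' : ∀ j, q.1 (Sum.inr i₀) j = 0 := congrFun h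
    rw [Matrix.mul_apply] at this
    simp [h'] at this
  refine ⟨⟨fun i => m (c (i, true)) (c (i, false)), fun p => {q | ‖R₁ q - c p • R₂ q‖ ≤ ‖R₂ q‖},
    fun i j q hi hj => ?_, fun i q hq => ?_, fun i h => ?_⟩⟩
  · have a1 : ‖(c j - c i) • R₂ q‖ ≤ 2 * ‖R₂ q‖ := by
      have : (c j - c i) • R₂ q = (R₁ q - c i • R₂ q) - (R₁ q - c j • R₂ q) := by module
      rw [this]
      have hi' : ‖R₁ q - c i • R₂ q‖ ≤ ‖R₂ q‖ := hi
      have hj' : ‖R₁ q - c j • R₂ q‖ ≤ ‖R₂ q‖ := hj
      linarith [norm_sub_le (R₁ q - c i • R₂ q) (R₁ q - c j • R₂ q)]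
    rw [norm_smul, mul_le_mul_iff_left₀ (h3 q), Int.norm_eq_abs] at a1
    have a2 : |c j - c i| ≤ 2 := by exact_mod_cast a1
    obtain ⟨i, b⟩ := i
    obtain ⟨j, b'⟩ := j
    rw [abs_le] at a2
    rcases b with _ | _ <;> rcases b' with _ | _ <;> simp [c] at a2 ⊢ <;> omega
  · have hq' : ‖R₂ q‖ < ‖R₁ q - c (i, false) • R₂ q‖ := not_le.1 hq
    change ‖R₁ _ - _ • R₂ _‖ ≤ ‖R₂ _‖
    rw [h1, h2, show c (i, true) • R₁ q - (c (i, true) * c (i, false) + 1) • R₂ q -
      c (i, true) • (R₁ q - c (i, false) • R₂ q) = -R₂ q by module, norm_neg]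
    exact hq'.le
  · have h' : ‖R₁ 1 - c (i, false) • R₂ 1‖ ≤ ‖R₂ 1‖ := h
    have a1 := (norm_le_pi_norm _ (Sum.inr i₀)).trans h'
    have a2 : ‖R₂ 1‖ ≤ 1 := (pi_norm_le_iff_of_nonneg zero_le_one).2 fun j => by
      simp only [R₂, OneMemClass.coe_one, Matrix.one_apply]
      split_ifs <;> simp
    have a3 := a1.trans a2
    simp only [R₁, R₂, OneMemClass.coe_one, Pi.sub_apply, Pi.smul_apply, Matrix.one_apply_eq,
      smul_eq_mul, mul_one, Int.norm_eq_abs] at a3
    rw [Matrix.one_apply_ne (by simp)] at a3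
    have a4 : |0 - c (i, false)| ≤ 1 := by exact_mod_cast a3
    rw [abs_le] at a4
    simp [c] at a4
    omega

end Pool.Agent.MP_4a6971_al
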